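import Pool.Agent.H24R2.DZ.Spec

set_option autoImplicit false

open Complex Filter Topology Set MeasureTheory

/-!
Mean value inequality on a square (the two lemmas on circles and polar coordinates are those of
Pool.Agent.Helper240.ZU.D).
-/

namespace Pool.Agent.W261.SD

theorem sla_mean (g : ℂ → ℂ) (U : Set ℂ) (hg : DifferentiableOn ℂ g U) (s : ℂ)
    (x : ℝ) (hx : 0 < x) (hb : Metric.closedBall s x ⊆ U) :
    2 * Real.pi * ‖g s‖ ^ 2 ≤ ∫ θ in Ioo (-Real.pi) Real.pi, ‖g (circleMap s x θ)‖ ^ 2 := by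
  have hd : DifferentiableOn ℂ (fun z => g z ^ 2) U := hg.pow 2
  have hb' : Metric.closedBall s |x| ⊆ U := by rwa [abs_of_pos hx]
  have h1 : Real.circleAverage (fun z => g z ^ 2) s x = g s ^ 2 :=
    DiffContOnCl.circleAverage (hd.diffContOnCl_ball hb')
  rw [Real.circleAverage_eq_integral_add (-Real.pi),
    intervalIntegral.integral_comp_add_right (fun θ => g (circleMap s x θ) ^ 2)] at h1
  have e1 : (0 : ℝ) + -Real.pi = -Real.pi := by ring
  have e2 : 2 * Real.pi + -Real.pi = Real.pi := by ring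
  rw [e1, e2] at h1
  have hpi := Real.pi_pos
  have hle : -Real.pi ≤ Real.pi := by linarith
  have h2 : ‖∫ θ in (-Real.pi)..Real.pi, g (circleMap s x θ) ^ 2‖
      ≤ ∫ θ in (-Real.pi)..Real.pi, ‖g (circleMap s x θ) ^ 2‖ :=
    intervalIntegral.norm_integral_le_integral_norm hle
  have h3 : ∫ θ in (-Real.pi)..Real.pi, ‖g (circleMap s x θ) ^ 2‖
      = ∫ θ in Ioo (-Real.pi) Real.pi, ‖g (circleMap s x θ)‖ ^ 2 := by
    rw [intervalIntegral.integral_of_le hle, integral_Ioc_eq_integral_Ioo]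
    simp only [norm_pow]
  have h4 : ‖g s‖ ^ 2 = (2 * Real.pi)⁻¹ * ‖∫ θ in (-Real.pi)..Real.pi, g (circleMap s x θ) ^ 2‖ := by
    rw [← norm_pow, ← h1, norm_smul, Real.norm_of_nonneg (by positivity)]
  rw [h4, ← mul_assoc, mul_inv_cancel₀ (by positivity), one_mul, ← h3]
  exact h2

theorem sla_polar (g : ℂ → ℂ) (s : ℂ) (r : ℝ) :
    ∫ w in Metric.ball s r, ‖g w‖ ^ 2
      = ∫ p in (Ioo 0 r) ×ˢ (Ioo (-Real.pi) Real.pi), p.1 * ‖g (circleMap s p.1 p.2)‖ ^ 2 := by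
  have h1 : ∫ w in Metric.ball s r, ‖g w‖ ^ 2
      = ∫ w : ℂ, (Metric.ball s r).indicator (fun w => ‖g w‖ ^ 2) (s + w) := by
    rw [← integral_indicator Metric.isOpen_ball.measurableSet]
    exact (integral_add_left_eq_self _ s).symm
  rw [h1, ← Complex.integral_comp_polarCoord_symm]
  have h2 : ∀ p ∈ polarCoord.target, p.1 • (Metric.ball s r).indicator (fun w => ‖g w‖ ^ 2)
      (s + Complex.polarCoord.symm p)
      = ((Ioo 0 r) ×ˢ (Ioo (-Real.pi) Real.pi)).indicator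
        (fun p : ℝ × ℝ => p.1 * ‖g (circleMap s p.1 p.2)‖ ^ 2) p := by
    intro p hp
    rw [polarCoord_target] at hp
    have hp1 : 0 < p.1 := hp.1
    have hc : s + Complex.polarCoord.symm p = circleMap s p.1 p.2 := by
      rw [Complex.polarCoord_symm_apply, circleMap, Complex.exp_mul_I]
      push_cast
      rfl
    rw [hc]
    by_cases hr' : p.1 < r
    · rw [Set.indicator_of_mem, Set.indicator_of_mem]
      · rfl
      · exact ⟨⟨hp1, hr'⟩, hp.2⟩
      · rw [Metric.mem_ball, dist_eq_norm, circleMap_sub_center, norm_circleMap_zero, abs_of_pos hp1]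
        exact hr'
    · rw [Set.indicator_of_notMem, Set.indicator_of_notMem]
      · simp
      · intro hcon
        exact hr' hcon.1.2
      · rw [Metric.mem_ball, dist_eq_norm, circleMap_sub_center, norm_circleMap_zero, abs_of_pos hp1]
        exact hr'
  rw [setIntegral_congr_fun polarCoord.open_target.measurableSet h2,
    setIntegral_indicator (measurableSet_Ioo.prod measurableSet_Ioo)]
  congr 2
  rw [polarCoord_target]
  ext p
  constructor
  · rintro ⟨_, h⟩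
    exact h
  · rintro h
    exact ⟨⟨h.1.1, h.2⟩, h⟩

/-- the closed square -/
def sq (x0 y0 ρ : ℝ) : Set ℂ := {z | |z.re - x0| ≤ ρ ∧ |z.im - y0| ≤ ρ}

lemma sq_eq (x0 y0 ρ : ℝ) :
    sq x0 y0 ρ = (Icc (x0 - ρ) (x0 + ρ)) ×ℂ (Icc (y0 - ρ) (y0 + ρ)) := by
  ext z
  simp only [sq, Complex.mem_reProdIm, Set.mem_Icc, abs_le, Set.mem_ofPred_eq]
  constructor
  · rintro ⟨⟨h1, h2⟩, ⟨h3, h4⟩⟩
    exact ⟨⟨by linarith, by linarith⟩, ⟨by linarith, by linarith⟩⟩
  · rintro ⟨⟨h1, h2⟩, ⟨h3, h4⟩⟩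
    exact ⟨⟨by linarith, by linarith⟩, ⟨by linarith, by linarith⟩⟩

lemma sq_integral (f : ℂ → ℝ) (x0 y0 ρ : ℝ) (hρ : 0 < ρ) (hf : ContinuousOn f (sq x0 y0 ρ)) :
    ∫ w in sq x0 y0 ρ, f w =
      ∫ x in (x0 - ρ)..(x0 + ρ), ∫ y in (y0 - ρ)..(y0 + ρ), f (x + y * I) := by
  have hle1 : x0 - ρ ≤ x0 + ρ := by linarith
  have hle2 : y0 - ρ ≤ y0 + ρ := by linarith
  have hmp := Complex.volume_preserving_equiv_real_prod.symm
  have h1 := hmp.setIntegral_preimage_emb
    Complex.measurableEquivRealProd.symm.measurableEmbedding f (sq x0 y0 ρ)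
  rw [← h1]
  have hpre : Complex.measurableEquivRealProd.symm ⁻¹' (sq x0 y0 ρ) =
      (Icc (x0 - ρ) (x0 + ρ)) ×ˢ (Icc (y0 - ρ) (y0 + ρ)) := by
    rw [sq_eq]
    ext p
    rw [Set.mem_preimage, Complex.mem_reProdIm, Set.mem_prod]
    rfl
  rw [hpre]
  have hfun : ∀ p : ℝ × ℝ, f (Complex.measurableEquivRealProd.symm p) = f (p.1 + p.2 * I) := by
    intro p
    congr 1
    apply Complex.ext
    · simp [Complex.measurableEquivRealProd_symm_apply]
    · simp [Complex.measurableEquivRealProd_symm_apply]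
  simp_rw [hfun]
  have hcont : ContinuousOn (fun p : ℝ × ℝ => f (p.1 + p.2 * I))
      ((Icc (x0 - ρ) (x0 + ρ)) ×ˢ (Icc (y0 - ρ) (y0 + ρ))) := by
    apply hf.comp (by fun_prop)
    intro p hp
    rw [sq_eq, Complex.mem_reProdIm]
    have e1 : ((p.1 : ℂ) + p.2 * I).re = p.1 := by simp
    have e2 : ((p.1 : ℂ) + p.2 * I).im = p.2 := by simp
    rw [e1, e2]
    exact ⟨hp.1, hp.2⟩
  have hint : IntegrableOn (fun p : ℝ × ℝ => f (p.1 + p.2 * I))
      ((Icc (x0 - ρ) (x0 + ρ)) ×ˢ (Icc (y0 - ρ) (y0 + ρ))) :=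
    hcont.integrableOn_compact (isCompact_Icc.prod isCompact_Icc)
  rw [Measure.volume_eq_prod] at hint ⊢
  rw [setIntegral_prod _ hint, intervalIntegral.integral_of_le hle1, integral_Icc_eq_integral_Ioc]
  congr 1
  funext x
  rw [intervalIntegral.integral_of_le hle2, integral_Icc_eq_integral_Ioc]

/-- SSq -/
theorem ssq : Pool.Agent.H24R2.DZ.SSq := by
  refine ⟨1, one_pos, ?_⟩
  intro g x0 y0 ρ hρ hg
  have hpi := Real.pi_pos
  set s : ℂ := x0 + y0 * I with hs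
  have hsre : s.re = x0 := by simp [hs]
  have hsim : s.im = y0 := by simp [hs]
  have hball : Metric.closedBall s ρ ⊆ sq x0 y0 ρ := by
    intro z hz
    rw [Metric.mem_closedBall, dist_eq_norm] at hz
    have e1 := (Complex.abs_re_le_norm (z - s)).trans hz
    have e2 := (Complex.abs_im_le_norm (z - s)).trans hz
    rw [Complex.sub_re, hsre] at e1
    rw [Complex.sub_im, hsim] at e2
    exact ⟨e1, e2⟩
  have hgd : DifferentiableOn ℂ g (sq x0 y0 ρ) := fun z hz =>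
    (hg z hz.1 hz.2).differentiableWithinAt
  have hcomp : IsCompact (sq x0 y0 ρ) := by
    rw [sq_eq]
    exact isCompact_Icc.reProdIm isCompact_Icc
  have hgc : ContinuousOn g (sq x0 y0 ρ) := hgd.continuousOn
  have hint : IntegrableOn (fun w => ‖g w‖ ^ 2) (sq x0 y0 ρ) :=
    ContinuousOn.integrableOn_compact hcomp ((hgc.norm).pow 2)
  have hA : ∫ w in Metric.ball s ρ, ‖g w‖ ^ 2 ≤ ∫ w in sq x0 y0 ρ, ‖g w‖ ^ 2 := by
    refine setIntegral_mono_set hint (Filter.Eventually.of_forall fun w => by positivity) ?_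
    exact (Metric.ball_subset_closedBall.trans hball).eventuallyLE
  have hmap : ∀ p ∈ (Icc 0 ρ) ×ˢ (Icc (-Real.pi) Real.pi), circleMap s p.1 p.2 ∈ sq x0 y0 ρ := by
    intro p hp
    apply hball
    rw [Metric.mem_closedBall, dist_eq_norm, circleMap_sub_center, norm_circleMap_zero,
      abs_of_nonneg hp.1.1]
    exact hp.1.2
  have hcm : Continuous fun p : ℝ × ℝ => circleMap s p.1 p.2 := by
    unfold circleMap
    fun_prop
  have hGint : IntegrableOn (fun p : ℝ × ℝ => p.1 * ‖g (circleMap s p.1 p.2)‖ ^ 2)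
      ((Ioo 0 ρ) ×ˢ (Ioo (-Real.pi) Real.pi)) := by
    have hc : ContinuousOn (fun p : ℝ × ℝ => p.1 * ‖g (circleMap s p.1 p.2)‖ ^ 2)
        ((Icc 0 ρ) ×ˢ (Icc (-Real.pi) Real.pi)) :=
      continuous_fst.continuousOn.mul (((hgc.comp hcm.continuousOn hmap).norm).pow 2)
    have := ContinuousOn.integrableOn_compact (μ := volume) (isCompact_Icc.prod isCompact_Icc) hc
    exact this.mono_set (Set.prod_mono Ioo_subset_Icc_self Ioo_subset_Icc_self)
  have hB : ∫ w in Metric.ball s ρ, ‖g w‖ ^ 2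
      = ∫ x in Ioo 0 ρ, ∫ θ in Ioo (-Real.pi) Real.pi, x * ‖g (circleMap s x θ)‖ ^ 2 := by
    rw [sla_polar g s ρ]
    exact setIntegral_prod _ hGint
  have hInt2 : IntegrableOn (fun x => ∫ θ in Ioo (-Real.pi) Real.pi,
      x * ‖g (circleMap s x θ)‖ ^ 2) (Ioo 0 ρ) := by
    have h := hGint
    rw [IntegrableOn, Measure.volume_eq_prod, ← Measure.prod_restrict] at h
    exact h.integral_prod_left
  have hC : ∫ x in Ioo 0 ρ, x * (2 * Real.pi * ‖g s‖ ^ 2)
      ≤ ∫ x in Ioo 0 ρ, ∫ θ in Ioo (-Real.pi) Real.pi, x * ‖g (circleMap s x θ)‖ ^ 2 := by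
    refine setIntegral_mono_on ?_ hInt2 measurableSet_Ioo ?_
    · have : ContinuousOn (fun x : ℝ => x * (2 * Real.pi * ‖g s‖ ^ 2)) (Icc 0 ρ) := by fun_prop
      exact (ContinuousOn.integrableOn_compact isCompact_Icc this).mono_set Ioo_subset_Icc_self
    · intro x hx
      rw [integral_const_mul]
      refine mul_le_mul_of_nonneg_left ?_ hx.1.le
      exact sla_mean g (sq x0 y0 ρ) hgd s x hx.1
        ((Metric.closedBall_subset_closedBall hx.2.le).trans hball)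
  have hD : ∫ x in Ioo 0 ρ, x * (2 * Real.pi * ‖g s‖ ^ 2) = Real.pi * ρ ^ 2 * ‖g s‖ ^ 2 := by
    rw [integral_mul_const, ← integral_Ioc_eq_integral_Ioo,
      ← intervalIntegral.integral_of_le hρ.le, integral_id]
    ring
  have hE : Real.pi * ρ ^ 2 * ‖g s‖ ^ 2 ≤ ∫ w in sq x0 y0 ρ, ‖g w‖ ^ 2 := by
    rw [← hD]
    exact hC.trans (hB.symm.le.trans hA)
  have hF : ρ ^ 2 * ‖g s‖ ^ 2 ≤ ∫ w in sq x0 y0 ρ, ‖g w‖ ^ 2 := by
    refine le_trans ?_ hE
    have h3 : 1 ≤ Real.pi := by linarith [Real.pi_gt_three]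
    have h4 : 0 ≤ ρ ^ 2 * ‖g s‖ ^ 2 := by positivity
    nlinarith
  rw [sq_integral (fun w => ‖g w‖ ^ 2) x0 y0 ρ hρ ((hgc.norm).pow 2)] at hF
  rw [div_mul_eq_mul_div, one_mul, le_div_iff₀ (by positivity)]
  linarith

end Pool.Agent.W261.SD
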