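import Pool.Agent.H24R2.DZ.Spec
import Pool.Agent.W688.GF.Stirling

set_option autoImplicit false

/-!
Lower bound for the Gamma factor, from Stirling's formula of Pool.Agent.H401R2.Stir and
Pool.Agent.W688.GF.Stirling.
-/

namespace Pool.Agent.W261.SD

open Complex Pool.Agent.H401R2 Pool.Agent.W688.GF

lemma gamma_re_one {z : ℂ} (hz : 1 ≤ z.re) (hz2 : z.re ≤ 2) (hi : 0 < z.im) :
    Real.exp (-(cS + 2)) * ‖z‖ ^ (z.re - 1 / 2) * Real.exp (-(Real.pi / 2 * z.im)) ≤ ‖Gamma z‖ := by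
  have hz0 : 0 < z.re := by linarith
  have hzne : z ≠ 0 := by
    intro h
    rw [h] at hz0
    simp at hz0
  have hnz : 0 < ‖z‖ := norm_pos_iff.2 hzne
  have hG : Gamma z ≠ 0 := Gamma_ne_zero_of_re_pos hz0
  have hGp : 0 < ‖Gamma z‖ := norm_pos_iff.2 hG
  have h1 := log_norm_sA hz
  unfold sA at h1
  rw [norm_mul, norm_exp, Real.log_mul hGp.ne' (Real.exp_pos _).ne', Real.log_exp, abs_le] at h1
  have harg : z.arg ≤ Real.pi / 2 := by
    have := (abs_arg_le_pi_div_two_iff.2 hz0.le)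
    exact (abs_le.1 this).2
  have e : (-((z - 1/2) * log z - z)).re =
      -((z.re - 1 / 2) * Real.log ‖z‖) + z.im * z.arg + z.re := by
    rw [neg_re, sub_re, mul_re, log_re, log_im]
    simp
    ring
  rw [e] at h1
  have h2 : z.im * z.arg ≤ z.im * (Real.pi / 2) := mul_le_mul_of_nonneg_left harg hi.le
  have h3 : -(cS + 2) + (z.re - 1 / 2) * Real.log ‖z‖ + -(Real.pi / 2 * z.im) ≤
      Real.log ‖Gamma z‖ := by
    nlinarith [h1.1]
  have h4 := Real.exp_le_exp.2 h3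
  rw [Real.exp_log hGp, Real.exp_add, Real.exp_add] at h4
  have h5 : ‖z‖ ^ (z.re - 1 / 2) = Real.exp ((z.re - 1 / 2) * Real.log ‖z‖) := by
    rw [Real.rpow_def_of_pos hnz, mul_comm]
  rw [h5]
  exact h4

lemma gamma_low {σ t : ℝ} (h1 : 1 / 2 ≤ σ) (h2 : σ ≤ 9 / 10) (ht : 0 < t) :
    Real.exp (-(cS + 2)) * t ^ (σ - 1 / 2) * Real.exp (-(Real.pi / 2 * t)) ≤
      ‖Gamma ((σ : ℂ) + t * I)‖ := by
  set s : ℂ := (σ : ℂ) + t * I with hs
  have hsre : s.re = σ := by simp [hs]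
  have hsim : s.im = t := by simp [hs]
  have hs0 : s ≠ 0 := by
    intro h
    rw [h] at hsim
    simp at hsim
    linarith
  have hns : 0 < ‖s‖ := norm_pos_iff.2 hs0
  have h3 := gamma_re_one (z := s + 1) (by rw [add_re, hsre, one_re]; linarith)
    (by rw [add_re, hsre, one_re]; linarith) (by rw [add_im, hsim, one_im]; linarith)
  rw [Complex.Gamma_add_one s hs0, norm_mul, add_re, hsre, one_re, add_im, hsim, one_im, add_zero] at h3
  have h4 : ‖s‖ ≤ ‖s + 1‖ := by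
    rw [← pow_le_pow_iff_left₀ (norm_nonneg _) (norm_nonneg _) two_ne_zero, Complex.sq_norm,
      Complex.sq_norm]
    rw [Complex.normSq_apply, Complex.normSq_apply, add_re s 1, add_im s 1, hsre, hsim, one_re,
      one_im]
    nlinarith
  have h5 : t ≤ ‖s‖ := by
    have := Complex.abs_im_le_norm s
    rw [hsim, abs_of_pos ht] at this
    exact this
  have h6 : ‖s‖ ^ (σ + 1 - 1 / 2) ≤ ‖s + 1‖ ^ (σ + 1 - 1 / 2) :=
    Real.rpow_le_rpow hns.le h4 (by linarith)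
  have h7 : ‖s‖ ^ (σ + 1 - 1 / 2) = ‖s‖ * ‖s‖ ^ (σ - 1 / 2) := by
    rw [show σ + 1 - 1 / 2 = 1 + (σ - 1 / 2) by ring, Real.rpow_add hns, Real.rpow_one]
  have h8 : t ^ (σ - 1 / 2) ≤ ‖s‖ ^ (σ - 1 / 2) := Real.rpow_le_rpow ht.le h5 (by linarith)
  have h9 : ‖s‖ * (Real.exp (-(cS + 2)) * t ^ (σ - 1 / 2) * Real.exp (-(Real.pi / 2 * t))) ≤
      ‖s‖ * ‖Gamma s‖ := by
    calc ‖s‖ * (Real.exp (-(cS + 2)) * t ^ (σ - 1 / 2) * Real.exp (-(Real.pi / 2 * t)))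
        ≤ ‖s‖ * (Real.exp (-(cS + 2)) * ‖s‖ ^ (σ - 1 / 2) * Real.exp (-(Real.pi / 2 * t))) := by
          gcongr
      _ = Real.exp (-(cS + 2)) * ‖s‖ ^ (σ + 1 - 1 / 2) * Real.exp (-(Real.pi / 2 * t)) := by
          rw [h7]; ring
      _ ≤ Real.exp (-(cS + 2)) * ‖s + 1‖ ^ (σ + 1 - 1 / 2) * Real.exp (-(Real.pi / 2 * t)) := by
          gcongr
      _ ≤ _ := h3
  exact le_of_mul_le_mul_left h9 hns

/-- SGamLow -/
theorem sgamlow : Pool.Agent.H24R2.DZ.SGamLow := by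
  refine ⟨Real.exp (-(2 * cS + 12)) / 4, 1, by positivity, le_rfl, ?_⟩
  intro T t σ hT ht1 ht2 h1 h2
  have hT0 : 0 < T := by linarith
  have ht : 0 < t := by linarith
  have hg := gamma_low h1 h2 ht
  have hexp : ‖cexp (-(I * ((Real.pi / 2 - 1 / T : ℝ) : ℂ)) * ((σ : ℂ) + t * I))‖ =
      Real.exp ((Real.pi / 2 - 1 / T) * t) := by
    rw [norm_exp]
    congr 1
    simp only [neg_mul, neg_re, mul_re, mul_im, I_re, I_im, ofReal_re, ofReal_im, add_re, add_im]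
    ring
  rw [norm_mul, hexp]
  have hpos : 0 ≤ Real.exp (-(cS + 2)) * t ^ (σ - 1 / 2) * Real.exp (-(Real.pi / 2 * t)) := by
    positivity
  have h3 : Real.exp (-(cS + 2)) * t ^ (σ - 1 / 2) * Real.exp (-(t / T)) ≤
      Real.exp ((Real.pi / 2 - 1 / T) * t) * ‖Gamma ((σ : ℂ) + t * I)‖ := by
    refine le_trans (le_of_eq ?_) (mul_le_mul_of_nonneg_left hg (Real.exp_pos _).le)
    have : Real.exp (-(t / T)) = Real.exp ((Real.pi / 2 - 1 / T) * t) *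
        Real.exp (-(Real.pi / 2 * t)) := by
      rw [← Real.exp_add]
      congr 1
      ring
    rw [this]
    ring
  have h4 : t / T ≤ 4 := by
    rw [div_le_iff₀ hT0]
    exact ht2
  have h5 : Real.exp (-4 : ℝ) ≤ Real.exp (-(t / T)) := Real.exp_le_exp.2 (by linarith)
  have h6 : Real.exp (-(cS + 2)) * t ^ (σ - 1 / 2) * Real.exp (-4 : ℝ) ≤
      Real.exp ((Real.pi / 2 - 1 / T) * t) * ‖Gamma ((σ : ℂ) + t * I)‖ :=
    le_trans (mul_le_mul_of_nonneg_left h5 (by positivity)) h3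
  have h7 : (T / 4) ^ (σ - 1 / 2) ≤ t ^ (σ - 1 / 2) :=
    Real.rpow_le_rpow (by positivity) ht1 (by linarith)
  have h8 : Real.exp (-(cS + 2)) * (T / 4) ^ (σ - 1 / 2) * Real.exp (-4 : ℝ) ≤
      Real.exp ((Real.pi / 2 - 1 / T) * t) * ‖Gamma ((σ : ℂ) + t * I)‖ := by
    refine le_trans ?_ h6
    gcongr
  have h9 := pow_le_pow_left₀ (by positivity) h8 2
  refine le_trans ?_ h9
  have e1 : (Real.exp (-(cS + 2)) * (T / 4) ^ (σ - 1 / 2) * Real.exp (-4 : ℝ)) ^ 2 =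
      Real.exp (-(2 * cS + 12)) * ((T / 4) ^ (2 * σ - 1)) := by
    have q1 : ((T / 4) ^ (σ - 1 / 2)) ^ 2 = (T / 4) ^ (2 * σ - 1) := by
      rw [← Real.rpow_natCast, ← Real.rpow_mul (by positivity)]
      congr 1
      push_cast
      ring
    have q2 : Real.exp (-(2 * cS + 12)) = Real.exp (-(cS + 2)) ^ 2 * Real.exp (-4 : ℝ) ^ 2 := by
      rw [← Real.exp_nat_mul, ← Real.exp_nat_mul, ← Real.exp_add]
      congr 1
      push_cast
      ring
    rw [mul_pow, mul_pow, q1, q2]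
    ring
  rw [e1]
  have e2 : (T / 4) ^ (2 * σ - 1) = T ^ (2 * σ - 1) * (1 / 4 : ℝ) ^ (2 * σ - 1) := by
    rw [← Real.mul_rpow hT0.le (by norm_num)]
    congr 1
    ring
  have e3 : (1 / 4 : ℝ) ≤ (1 / 4 : ℝ) ^ (2 * σ - 1) := by
    calc (1 / 4 : ℝ) = (1 / 4 : ℝ) ^ (1 : ℝ) := (Real.rpow_one _).symm
      _ ≤ (1 / 4 : ℝ) ^ (2 * σ - 1) :=
        Real.rpow_le_rpow_of_exponent_ge (by norm_num) (by norm_num) (by linarith)
  rw [e2]
  have hTp : 0 ≤ T ^ (2 * σ - 1) := by positivity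
  calc Real.exp (-(2 * cS + 12)) / 4 * T ^ (2 * σ - 1)
      = Real.exp (-(2 * cS + 12)) * (T ^ (2 * σ - 1) * (1 / 4)) := by ring
    _ ≤ Real.exp (-(2 * cS + 12)) * (T ^ (2 * σ - 1) * (1 / 4 : ℝ) ^ (2 * σ - 1)) := by gcongr

end Pool.Agent.W261.SD
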